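import Pool.Agent.L5helper66.TD.Defs

/-!
# The dihedral angles of a tetragonal disphenoid
-/

set_option autoImplicit false

open scoped TensorProduct RealInnerProductSpace

namespace Pool.Agent.L5helper27.TD

open Pool.Agent.L5helper66.TD

theorem inner_of_dist (P Q R : E3) (x y z : ℝ) (hx : dist P Q ^ 2 = x) (hy : dist P R ^ 2 = y)
    (hz : dist Q R ^ 2 = z) : ⟪Q - P, R - P⟫ = (x + y - z) / 2 := by
  have h1 : ⟪Q - P, Q - P⟫ = x := by
    rw [real_inner_self_eq_norm_sq, ← dist_eq_norm, dist_comm, hx]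
  have h2 : ⟪R - P, R - P⟫ = y := by
    rw [real_inner_self_eq_norm_sq, ← dist_eq_norm, dist_comm, hy]
  have h3 : ⟪(Q - P) - (R - P), (Q - P) - (R - P)⟫ = z := by
    have : (Q - P) - (R - P) = Q - R := by abel
    rw [this, real_inner_self_eq_norm_sq, ← dist_eq_norm, hz]
  rw [real_inner_sub_sub_self] at h3
  linarith

theorem inner_self_of_dist (P Q : E3) (x : ℝ) (hx : dist P Q ^ 2 = x) : ⟪Q - P, Q - P⟫ = x := by
  rw [real_inner_self_eq_norm_sq, ← dist_eq_norm, dist_comm, hx]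

theorem inner_orth (u v w : E3) (hu : ⟪u, u⟫ ≠ 0) :
    ⟪orth u v, orth u w⟫ = ⟪v, w⟫ - ⟪u, v⟫ * ⟪u, w⟫ / ⟪u, u⟫ := by
  unfold orth
  simp only [inner_sub_left, inner_sub_right, real_inner_smul_left, real_inner_smul_right]
  rw [real_inner_comm u v]
  field_simp
  ring

/-- The dihedral angle in terms of the squared edges, when the two faces have the same height. -/
theorem dihedral_eq (P Q R S : E3) (pq pr ps qr qs rs N : ℝ) (hpq : dist P Q ^ 2 = pq)
    (hpr : dist P R ^ 2 = pr) (hps : dist P S ^ 2 = ps) (hqr : dist Q R ^ 2 = qr)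
    (hqs : dist Q S ^ 2 = qs) (hrs : dist R S ^ 2 = rs) (h0 : 0 < pq)
    (hN : 0 < N) (h1 : pr - ((pq + pr - qr) / 2) ^ 2 / pq = N)
    (h2 : ps - ((pq + ps - qs) / 2) ^ 2 / pq = N) :
    dihedral P Q R S = Real.arccos
      (((pr + ps - rs) / 2 - (pq + pr - qr) / 2 * ((pq + ps - qs) / 2) / pq) / N) := by
  have huu := inner_self_of_dist P Q pq hpq
  have hvv := inner_self_of_dist P R pr hpr
  have hww := inner_self_of_dist P S ps hps
  have huv := inner_of_dist P Q R pq pr qr hpq hpr hqr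
  have huw := inner_of_dist P Q S pq ps qs hpq hps hqs
  have hvw := inner_of_dist P R S pr ps rs hpr hps hrs
  have hne : ⟪Q - P, Q - P⟫ ≠ 0 := by rw [huu]; exact h0.ne'
  have e1 : ⟪orth (Q - P) (R - P), orth (Q - P) (R - P)⟫ = N := by
    rw [inner_orth _ _ _ hne, huu, hvv, huv, ← h1]
    ring
  have e2 : ⟪orth (Q - P) (S - P), orth (Q - P) (S - P)⟫ = N := by
    rw [inner_orth _ _ _ hne, huu, hww, huw, ← h2]
    ring
  have n1 : ‖orth (Q - P) (R - P)‖ = √N := by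
    rw [← e1, real_inner_self_eq_norm_sq, Real.sqrt_sq (norm_nonneg _)]
  have n2 : ‖orth (Q - P) (S - P)‖ = √N := by
    rw [← e2, real_inner_self_eq_norm_sq, Real.sqrt_sq (norm_nonneg _)]
  unfold dihedral InnerProductGeometry.angle
  rw [n1, n2, Real.mul_self_sqrt hN.le, inner_orth _ _ _ hne, huu, huv, huw, hvw]

theorem dis_geo (T : Fin 4 → E3) (hT : AffineIndependent ℝ T) (a b : ℝ) (h : IsDisphenoid T a b) :
    0 < a ∧ 0 < b ∧ a ^ 2 < 2 * b ^ 2 ∧ ∃ α β : ℝ, 0 < α ∧ α < Real.pi ∧ 0 < β ∧ β < Real.pi ∧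
      Real.cos α = (4 * b ^ 2 - 3 * a ^ 2) / (4 * b ^ 2 - a ^ 2) ∧
      Real.cos β = a ^ 2 / (4 * b ^ 2 - a ^ 2) ∧
      dehn T = 2 • (a ⊗ₜ[ℤ] ang α) + 4 • (b ⊗ₜ[ℤ] ang β) := by
  obtain ⟨h01, h23, h02, h03, h12, h13⟩ := h
  have hinj := hT.injective
  have ha : 0 < a := by
    rw [← h01, dist_pos]
    intro he
    exact absurd (hinj he) (by decide)
  have hb : 0 < b := by
    rw [← h02, dist_pos]
    intro he
    exact absurd (hinj he) (by decide)
  have h10 : dist (T 1) (T 0) = a := by rw [dist_comm, h01]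
  have h32 : dist (T 3) (T 2) = a := by rw [dist_comm, h23]
  have h20 : dist (T 2) (T 0) = b := by rw [dist_comm, h02]
  have h30 : dist (T 3) (T 0) = b := by rw [dist_comm, h03]
  have h21 : dist (T 2) (T 1) = b := by rw [dist_comm, h12]
  have h31 : dist (T 3) (T 1) = b := by rw [dist_comm, h13]
  have hlt : a ^ 2 < 2 * b ^ 2 := by
    have huu := inner_self_of_dist (T 0) (T 1) (a ^ 2) (by rw [h01])
    have hvv := inner_self_of_dist (T 0) (T 2) (b ^ 2) (by rw [h02])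
    have hww := inner_self_of_dist (T 0) (T 3) (b ^ 2) (by rw [h03])
    have huv := inner_of_dist (T 0) (T 1) (T 2) (a ^ 2) (b ^ 2) (b ^ 2) (by rw [h01]) (by rw [h02])
      (by rw [h12])
    have huw := inner_of_dist (T 0) (T 1) (T 3) (a ^ 2) (b ^ 2) (b ^ 2) (by rw [h01]) (by rw [h03])
      (by rw [h13])
    have hvw := inner_of_dist (T 0) (T 2) (T 3) (b ^ 2) (b ^ 2) (a ^ 2) (by rw [h02]) (by rw [h03])
      (by rw [h23])
    set u := T 1 - T 0 with hu
    set v := T 2 - T 0 with hv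
    set w := T 3 - T 0 with hw
    have hne : v + w - u ≠ 0 := by
      intro h0
      rw [affineIndependent_iff] at hT
      have := hT Finset.univ ![1, 1, -1, -1] (by simp [Fin.sum_univ_four]) (by
        simp only [Fin.sum_univ_four]
        have h5 : T 2 + T 3 - T 1 - T 0 = 0 := by
          rw [← h0, hu, hv, hw]; abel
        simp only [Matrix.cons_val_zero, Matrix.cons_val_one, Matrix.cons_val]
        have : (1 : ℝ) • T 0 + (1 : ℝ) • T 1 + (-1 : ℝ) • T 2 + (-1 : ℝ) • T 3 =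
          -(T 2 + T 3 - T 1 - T 0) := by
          simp only [one_smul, neg_smul]; abel
        rw [this, h5, neg_zero]) 0 (Finset.mem_univ _)
      simp at this
    have hpos : 0 < ⟪v + w - u, v + w - u⟫ := real_inner_self_pos.mpr hne
    have hexp : ⟪v + w - u, v + w - u⟫ = ⟪v, v⟫ + ⟪w, w⟫ + ⟪u, u⟫ + 2 * ⟪v, w⟫ - 2 * ⟪u, v⟫ -
        2 * ⟪u, w⟫ := by
      simp only [inner_sub_left, inner_sub_right, inner_add_left, inner_add_right]
      rw [real_inner_comm u v, real_inner_comm u w, real_inner_comm v w]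
      ring
    rw [hexp, huu, hvv, hww, huv, huw, hvw] at hpos
    nlinarith
  have ha2 : 0 < a ^ 2 := by positivity
  have hb2 : 0 < b ^ 2 := by positivity
  have hD : 0 < 4 * b ^ 2 - a ^ 2 := by linarith
  have dA : ∀ P Q R S : E3, dist P Q = a → dist P R = b → dist P S = b → dist Q R = b →
      dist Q S = b → dist R S = a → dihedral P Q R S =
        Real.arccos ((4 * b ^ 2 - 3 * a ^ 2) / (4 * b ^ 2 - a ^ 2)) := by
    intro P Q R S e1 e2 e3 e4 e5 e6
    rw [dihedral_eq P Q R S (a ^ 2) (b ^ 2) (b ^ 2) (b ^ 2) (b ^ 2) (a ^ 2)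
      ((4 * b ^ 2 - a ^ 2) / 4) (by rw [e1]) (by rw [e2]) (by rw [e3]) (by rw [e4]) (by rw [e5])
      (by rw [e6]) ha2 (by linarith) (by field_simp; ring) (by field_simp; ring)]
    congr 1
    field_simp
    ring
  have dB : ∀ P Q R S : E3, dist P Q = b → dist P R = a → dist P S = b → dist Q R = b →
      dist Q S = a → dist R S = b → dihedral P Q R S =
        Real.arccos (a ^ 2 / (4 * b ^ 2 - a ^ 2)) := by
    intro P Q R S e1 e2 e3 e4 e5 e6
    rw [dihedral_eq P Q R S (b ^ 2) (a ^ 2) (b ^ 2) (b ^ 2) (a ^ 2) (b ^ 2)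
      (a ^ 2 * (4 * b ^ 2 - a ^ 2) / (4 * b ^ 2)) (by rw [e1]) (by rw [e2]) (by rw [e3])
      (by rw [e4]) (by rw [e5])
      (by rw [e6]) hb2 (by positivity) (by field_simp; ring) (by field_simp; ring)]
    congr 1
    field_simp
    ring
  have c1 : (4 * b ^ 2 - 3 * a ^ 2) / (4 * b ^ 2 - a ^ 2) < 1 := by
    rw [div_lt_one hD]; linarith
  have c2 : -1 < (4 * b ^ 2 - 3 * a ^ 2) / (4 * b ^ 2 - a ^ 2) := by
    rw [lt_div_iff₀ hD]; linarith
  have c3 : a ^ 2 / (4 * b ^ 2 - a ^ 2) < 1 := by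
    rw [div_lt_one hD]; linarith
  have c4 : 0 < a ^ 2 / (4 * b ^ 2 - a ^ 2) := by positivity
  refine ⟨ha, hb, hlt, Real.arccos ((4 * b ^ 2 - 3 * a ^ 2) / (4 * b ^ 2 - a ^ 2)),
    Real.arccos (a ^ 2 / (4 * b ^ 2 - a ^ 2)), Real.arccos_pos.mpr c1, ?_, Real.arccos_pos.mpr c3,
    ?_, Real.cos_arccos c2.le c1.le, Real.cos_arccos (by linarith) c3.le, ?_⟩
  · rw [← Real.arccos_neg_one]
    exact Real.arccos_lt_arccos (le_refl _) c2 c1.le
  · rw [← Real.arccos_neg_one]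
    exact Real.arccos_lt_arccos (le_refl _) (by linarith) c3.le
  · unfold dehn term
    rw [dA (T 0) (T 1) (T 2) (T 3) h01 h02 h03 h12 h13 h23,
      dA (T 2) (T 3) (T 0) (T 1) h23 h20 h21 h30 h31 h01,
      dB (T 0) (T 2) (T 1) (T 3) h02 h01 h03 h21 h23 h13,
      dB (T 0) (T 3) (T 1) (T 2) h03 h01 h02 h31 h32 h12,
      dB (T 1) (T 2) (T 0) (T 3) h12 h10 h13 h20 h23 h03,
      dB (T 1) (T 3) (T 0) (T 2) h13 h10 h12 h30 h32 h02,
      h01, h23, h02, h03, h12, h13]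
    abel

end Pool.Agent.L5helper27.TD
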